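import Pool.Agent.Q208.QM.Sing

/-!
# Linear systems of singular quadratic forms in four variables, ranks two and one
-/

set_option autoImplicit false

namespace Pool.Agent.Q208.QM

open Matrix

section
variable {K : Type} [Field K] {r : ℕ}

/-- rank at most two -/
def R2 (M : Matrix (Fin 4) (Fin 4) K) : Prop := ∃ (a b : K) (p q : Fin 4 → K),
  M = a • vecMulVec p p + b • vecMulVec q q

/-- rank at most one -/
def R1 (M : Matrix (Fin 4) (Fin 4) K) : Prop := ∃ (a : K) (p : Fin 4 → K), M = a • vecMulVec p p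

theorem conj_vec (P : Matrix (Fin 4) (Fin 4) K) (a b : Fin 4 → K) :
    Pᵀ * vecMulVec a b * P = vecMulVec (Pᵀ.mulVec a) (Pᵀ.mulVec b) := by
  rw [Matrix.mul_vecMulVec, Matrix.vecMulVec_mul, Matrix.mulVec_transpose P b]

theorem conj_R2 {M : Matrix (Fin 4) (Fin 4) K} (h : R2 M) (P : Matrix (Fin 4) (Fin 4) K) :
    R2 (Pᵀ * M * P) := by
  obtain ⟨a, b, p, q, h⟩ := h
  refine ⟨a, b, Pᵀ.mulVec p, Pᵀ.mulVec q, ?_⟩
  rw [h, Matrix.mul_add, Matrix.add_mul, Matrix.mul_smul, Matrix.mul_smul, Matrix.smul_mul,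
    Matrix.smul_mul, conj_vec, conj_vec]

/-- the minors of a form of rank two -/
theorem minor {M : Matrix (Fin 4) (Fin 4) K} (h : R2 M) (i j k l m n : Fin 4) :
    M i l * (M j m * M k n - M j n * M k m) - M i m * (M j l * M k n - M j n * M k l) +
      M i n * (M j l * M k m - M j m * M k l) = 0 := by
  obtain ⟨a, b, p, q, rfl⟩ := h
  simp only [Matrix.add_apply, Matrix.smul_apply, Matrix.vecMulVec_apply, smul_eq_mul]
  ring

/-- **rank two, adapted coordinates** -/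
theorem case2' [CharZero K] {A : Fin r → Matrix (Fin 4) (Fin 4) K} (hs : ∀ j, (A j).IsSymm)
    (hr : ∀ l, R2 (Sl A l)) (l0 l1 : Fin r → K)
    (h0 : Sl A l0 = !![0, 0, 0, 0; 0, 0, 0, 0; 0, 0, 0, 1; 0, 0, 1, 0])
    (h1 : Sl A l1 0 3 = 1) : Res A := by
  have key : ∀ l : Fin r → K, ∀ t : K, R2 (Sl A l + t • Sl A l0) := by
    intro l t
    rw [← Sl_smul, ← Sl_add]
    exact hr _
  have sy : ∀ l i j, Sl A l i j = Sl A l j i := fun l i j => symm_entry (Sl_symm hs l) i j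
  have c1 : ∀ l : Fin r → K, (Sl A l 0 0 = 0 ∧ Sl A l 0 1 = 0 ∧ Sl A l 1 1 = 0) ∧
      Sl A l 0 2 * Sl A l 0 3 = 0 ∧ Sl A l 0 2 * Sl A l 1 3 + Sl A l 0 3 * Sl A l 1 2 = 0 ∧
      (-(Sl A l 0 2) ^ 2 * Sl A l 3 3 + 2 * Sl A l 0 2 * Sl A l 0 3 * Sl A l 2 3 -
        (Sl A l 0 3) ^ 2 * Sl A l 2 2 = 0) := by
    intro l
    obtain ⟨B, hB⟩ : ∃ B, B = Sl A l := ⟨_, rfl⟩
    have h := key l
    have s20 := sy l 2 0
    have s30 := sy l 3 0
    have s21 := sy l 2 1
    have s31 := sy l 3 1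
    have s32 := sy l 3 2
    rw [h0] at h
    rw [← hB] at h s20 s30 s21 s31 s32 ⊢
    have p00 : ∀ t : K, (B 0 0 * (B 2 2 * B 3 3 - B 2 3 ^ 2) - B 0 2 ^ 2 * B 3 3 +
        2 * B 0 2 * B 0 3 * B 2 3 - B 0 3 ^ 2 * B 2 2) +
        (-2 * B 0 0 * B 2 3 + 2 * B 0 2 * B 0 3) * t + (-B 0 0) * t ^ 2 + 0 * t ^ 3 = 0 := by
      intro t
      have h3 := minor (h t) 0 2 3 0 2 3
      simp only [Matrix.add_apply, Matrix.smul_apply, Matrix.of_apply, Matrix.cons_val', Matrix.cons_val,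
        smul_eq_mul, mul_zero, mul_one, add_zero] at h3
      rw [s20, s30, s32] at h3
      linear_combination h3
    have p01 : ∀ t : K, (B 0 1 * (B 2 2 * B 3 3 - B 2 3 ^ 2) - B 0 2 * (B 1 2 * B 3 3 - B 2 3 * B 1 3) +
        B 0 3 * (B 1 2 * B 2 3 - B 2 2 * B 1 3)) +
        (-2 * B 0 1 * B 2 3 + B 0 2 * B 1 3 + B 0 3 * B 1 2) * t + (-B 0 1) * t ^ 2 + 0 * t ^ 3 = 0 := by
      intro t
      have h3 := minor (h t) 0 2 3 1 2 3
      simp only [Matrix.add_apply, Matrix.smul_apply, Matrix.of_apply, Matrix.cons_val', Matrix.cons_val,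
        smul_eq_mul, mul_zero, mul_one, add_zero] at h3
      rw [s21, s31, s32] at h3
      linear_combination h3
    have p11 : ∀ t : K, (B 1 1 * (B 2 2 * B 3 3 - B 2 3 ^ 2) - B 1 2 ^ 2 * B 3 3 +
        2 * B 1 2 * B 1 3 * B 2 3 - B 1 3 ^ 2 * B 2 2) +
        (-2 * B 1 1 * B 2 3 + 2 * B 1 2 * B 1 3) * t + (-B 1 1) * t ^ 2 + 0 * t ^ 3 = 0 := by
      intro t
      have h3 := minor (h t) 1 2 3 1 2 3
      simp only [Matrix.add_apply, Matrix.smul_apply, Matrix.of_apply, Matrix.cons_val', Matrix.cons_val,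
        smul_eq_mul, mul_zero, mul_one, add_zero] at h3
      rw [s21, s31, s32] at h3
      linear_combination h3
    obtain ⟨a0, a1, a2, _⟩ := poly3 p00
    obtain ⟨_, b1, b2, _⟩ := poly3 p01
    obtain ⟨_, _, d2, _⟩ := poly3 p11
    have e0 : B 0 0 = 0 := neg_eq_zero.1 a2
    have e1 : B 0 1 = 0 := neg_eq_zero.1 b2
    have e2 : B 1 1 = 0 := neg_eq_zero.1 d2
    rw [e0] at a0 a1
    rw [e1] at b1
    refine ⟨⟨e0, e1, e2⟩, ?_, ?_, ?_⟩
    · have : 2 * (B 0 2 * B 0 3) = 0 := by linear_combination a1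
      rcases mul_eq_zero.1 this with h | h
      · exact absurd h two_ne_zero
      · exact h
    · linear_combination b1
    · linear_combination a0
  have c2 : ∀ l : Fin r → K, Sl A l 0 2 = 0 := by
    have g := (c1 l1).2.1
    rw [h1, mul_one] at g
    intro l
    have e1 := (c1 l).2.1
    have e2 := (c1 (l + l1)).2.1
    rw [Sl_add] at e2
    simp only [Matrix.add_apply] at e2
    rw [h1, g, add_zero] at e2
    linear_combination e2 - e1
  have c3 : ∀ l : Fin r → K, Sl A l 1 2 = 0 ∧ Sl A l 2 2 = 0 := by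
    have g1 := (c1 l1).2.2.1
    have g2 := (c1 l1).2.2.2
    rw [c2 l1, h1] at g1 g2
    have g1' : Sl A l1 1 2 = 0 := by linear_combination g1
    have g2' : Sl A l1 2 2 = 0 := by linear_combination -g2
    intro l
    have e1 := (c1 l).2.2.1
    have e1' := (c1 l).2.2.2
    have e2 := (c1 (l + l1)).2.2.1
    have e2' := (c1 (l + l1)).2.2.2
    rw [Sl_add] at e2 e2'
    simp only [Matrix.add_apply] at e2 e2'
    rw [c2 l] at e1 e1'
    rw [h1, g1', c2 l, c2 l1] at e2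
    rw [h1, g2', c2 l, c2 l1] at e2'
    have f1 : Sl A l 0 3 * Sl A l 1 2 = 0 := by linear_combination e1
    have f2 : (Sl A l 0 3 * Sl A l 2 2) ^ 2 = 0 := by linear_combination -Sl A l 2 2 * e1'
    have f2' : Sl A l 0 3 * Sl A l 2 2 = 0 := pow_eq_zero_iff (two_ne_zero) |>.1 f2
    refine ⟨by linear_combination e2 - e1, ?_⟩
    linear_combination -e2' + e1' - 2 * f2'
  right; right
  refine ⟨![0, 0, 0, 1], 0, fun j => ![A j 0 3, A j 1 3, A j 2 3, A j 3 3 / 2], fun j => 0, ?_,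
    fun j => ?_⟩
  · intro h
    have := congrFun h 3
    simp at this
  · obtain ⟨⟨d0, d1, d11⟩, _, _, _⟩ := c1 (Pi.single j 1)
    have d2 := c2 (Pi.single j 1)
    obtain ⟨d12, d22⟩ := c3 (Pi.single j 1)
    rw [Sl_single] at d0 d1 d2 d11 d12 d22
    have s := fun a b => symm_entry (hs j) a b
    ext a b
    fin_cases a <;> fin_cases b <;>
      simp [d0, d1, d2, d11, d12, d22, s 1 0, s 2 0, s 3 0, s 2 1, s 3 1, s 3 2]

/-- **rank two, orthogonal coordinates** -/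
theorem case2 [CharZero K] {A : Fin r → Matrix (Fin 4) (Fin 4) K} (hs : ∀ j, (A j).IsSymm)
    (hr : ∀ l, R2 (Sl A l)) (l0 : Fin r → K) {a0 a1 : K} (n0 : a0 ≠ 0) (n1 : a1 ≠ 0)
    (h0 : Sl A l0 = !![a0, 0, 0, 0; 0, a1, 0, 0; 0, 0, 0, 0; 0, 0, 0, 0]) : Res A := by
  have key : ∀ l : Fin r → K, ∀ t : K, R2 (Sl A l + t • Sl A l0) := by
    intro l t
    rw [← Sl_smul, ← Sl_add]
    exact hr _
  have sy : ∀ l i j, Sl A l i j = Sl A l j i := fun l i j => symm_entry (Sl_symm hs l) i j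
  have c1 : ∀ l : Fin r → K, (Sl A l 2 2 = 0 ∧ Sl A l 2 3 = 0) ∧
      a0 * Sl A l 1 2 ^ 2 + a1 * Sl A l 0 2 ^ 2 = 0 := by
    intro l
    obtain ⟨B, hB⟩ : ∃ B, B = Sl A l := ⟨_, rfl⟩
    have h := key l
    have s10 := sy l 1 0
    have s20 := sy l 2 0
    have s30 := sy l 3 0
    have s21 := sy l 2 1
    have s31 := sy l 3 1
    have s32 := sy l 3 2
    rw [h0] at h
    rw [← hB] at h s10 s20 s30 s21 s31 s32 ⊢
    have p22 : ∀ t : K, (B 0 0 * (B 1 1 * B 2 2 - B 1 2 ^ 2) - B 0 1 * (B 0 1 * B 2 2 - B 1 2 * B 0 2) +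
        B 0 2 * (B 0 1 * B 1 2 - B 1 1 * B 0 2)) +
        (a0 * (B 1 1 * B 2 2 - B 1 2 ^ 2) + a1 * (B 0 0 * B 2 2 - B 0 2 ^ 2)) * t +
        (a0 * a1 * B 2 2) * t ^ 2 + 0 * t ^ 3 = 0 := by
      intro t
      have h3 := minor (h t) 0 1 2 0 1 2
      simp only [Matrix.add_apply, Matrix.smul_apply, Matrix.of_apply, Matrix.cons_val', Matrix.cons_val,
        smul_eq_mul, mul_zero, add_zero] at h3
      rw [s10, s20, s21] at h3
      linear_combination h3
    have p23 : ∀ t : K, (B 0 0 * (B 1 1 * B 2 3 - B 1 3 * B 1 2) - B 0 1 * (B 0 1 * B 2 3 - B 1 3 * B 0 2) +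
        B 0 3 * (B 0 1 * B 1 2 - B 1 1 * B 0 2)) +
        (a0 * (B 1 1 * B 2 3 - B 1 3 * B 1 2) + a1 * (B 0 0 * B 2 3 - B 0 3 * B 0 2)) * t +
        (a0 * a1 * B 2 3) * t ^ 2 + 0 * t ^ 3 = 0 := by
      intro t
      have h3 := minor (h t) 0 1 2 0 1 3
      simp only [Matrix.add_apply, Matrix.smul_apply, Matrix.of_apply, Matrix.cons_val', Matrix.cons_val,
        smul_eq_mul, mul_zero, add_zero] at h3
      rw [s10, s20, s21] at h3
      linear_combination h3
    obtain ⟨_, e1, e2, _⟩ := poly3 p22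
    obtain ⟨_, _, e3, _⟩ := poly3 p23
    have f2 : B 2 2 = 0 := (mul_eq_zero.1 e2).resolve_left (mul_ne_zero n0 n1)
    have f3 : B 2 3 = 0 := (mul_eq_zero.1 e3).resolve_left (mul_ne_zero n0 n1)
    refine ⟨⟨f2, f3⟩, ?_⟩
    rw [f2] at e1
    linear_combination -e1
  by_cases hx : ∃ l1, Sl A l1 0 2 ≠ 0
  · obtain ⟨l1, hx⟩ := hx
    obtain ⟨⟨b22, b23⟩, iso⟩ := c1 l1
    obtain ⟨x, hx0⟩ : ∃ x, x = Sl A l1 0 2 := ⟨_, rfl⟩
    obtain ⟨y, hy0⟩ : ∃ y, y = Sl A l1 1 2 := ⟨_, rfl⟩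
    rw [← hx0] at hx
    rw [← hx0, ← hy0] at iso
    have hy : y ≠ 0 := by
      rintro rfl
      have : a1 * x ^ 2 = 0 := by linear_combination iso
      exact (mul_ne_zero n1 (pow_ne_zero 2 hx)) this
    obtain ⟨u0, hu0⟩ : ∃ u, a0 * u = x := ⟨x / a0, by field_simp⟩
    obtain ⟨u1, hu1⟩ : ∃ u, a1 * u = y := ⟨y / a1, by field_simp⟩
    obtain ⟨v0, hv0⟩ : ∃ v, 2 * (x * v) = 1 := ⟨1 / (2 * x), by field_simp⟩
    obtain ⟨v1, hv1⟩ : ∃ v, 2 * (y * v) = 1 := ⟨1 / (2 * y), by field_simp⟩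
    have iso' : x * u0 + y * u1 = 0 := by
      have : a0 * a1 * (x * u0 + y * u1) = 0 := by
        linear_combination iso + a1 * x * hu0 + a0 * y * hu1
      exact (mul_eq_zero.1 this).resolve_left (mul_ne_zero n0 n1)
    have isv : a0 * v0 ^ 2 + a1 * v1 ^ 2 = 0 := by
      have : (4 * x ^ 2 * y ^ 2) * (a0 * v0 ^ 2 + a1 * v1 ^ 2) = 0 := by
        linear_combination iso + a0 * y ^ 2 * (2 * (x * v0) + 1) * hv0 +
          a1 * x ^ 2 * (2 * (y * v1) + 1) * hv1
      exact (mul_eq_zero.1 this).resolve_left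
        (mul_ne_zero (mul_ne_zero (by norm_num) (pow_ne_zero 2 hx)) (pow_ne_zero 2 hy))
    obtain ⟨P, hP⟩ : ∃ P : Matrix (Fin 4) (Fin 4) K, P = !![0, 0, u0, v0; 0, 0, u1, v1;
      1, 0, 0, 0; 0, 1, 0, 0] := ⟨_, rfl⟩
    have hPd : P.det ≠ 0 := by
      have h1 : P.det = u0 * v1 - v0 * u1 := by
        rw [det4, hP]
        simp only [Matrix.of_apply, Matrix.cons_val', Matrix.cons_val]
        ring
      rw [h1]
      intro h2
      have h3 : a1 * x = 0 := by
        linear_combination (a0 * a1 * y) * h2 - a1 * y * v1 * hu0 + a0 * y * v0 * hu1 +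
          v0 * iso - (a1 * x / 2) * hv0 - (a1 * x / 2) * hv1 - a1 * x * hv0 + a1 * x * hv0
      exact (mul_ne_zero n1 hx) h3
    apply inv_Res hPd
    refine case2' (fun j => conj_symm (hs j)) (fun l => by rw [Sl_conj]; exact conj_R2 (hr l) P)
      l0 l1 ?_ ?_
    · rw [Sl_conj, h0]
      ext i j
      rw [conj_apply]
      simp only [Fin.sum_univ_four]
      rw [hP]
      fin_cases i <;> fin_cases j <;>
        simp only [Fin.zero_eta, Fin.mk_one, Fin.reduceFinMk, Matrix.of_apply, Matrix.cons_val',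
          Matrix.cons_val, mul_zero, zero_mul, add_zero, zero_add]
      · linear_combination u0 * hu0 + u1 * hu1 + iso'
      · linear_combination v0 * hu0 + v1 * hu1 + hv0 / 2 + hv1 / 2
      · linear_combination v0 * hu0 + v1 * hu1 + hv0 / 2 + hv1 / 2
      · linear_combination isv
    · rw [Sl_conj, conj_apply]
      simp only [Fin.sum_univ_four]
      rw [sy l1 2 0, sy l1 2 1, b22, b23, ← hx0, ← hy0, hP]
      simp only [Matrix.of_apply, Matrix.cons_val', Matrix.cons_val, mul_zero, zero_mul, add_zero,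
        zero_add, one_mul]
      linear_combination hv0 / 2 + hv1 / 2
  · push Not at hx
    right; left
    refine ⟨![0, 0, 1, 0], ?_, fun j => ?_⟩
    · intro h
      have := congrFun h 2
      simp at this
    · have e0 := hx (Pi.single j 1)
      obtain ⟨⟨e2, e3⟩, e4⟩ := c1 (Pi.single j 1)
      have e5 := sy (Pi.single j 1) 3 2
      rw [e0] at e4
      have e1 : Sl A (Pi.single j 1) 1 2 ^ 2 = 0 := by
        have : a0 * Sl A (Pi.single j 1) 1 2 ^ 2 = 0 := by linear_combination e4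
        exact (mul_eq_zero.1 this).resolve_left n0
      have e1' := pow_eq_zero_iff (two_ne_zero) |>.1 e1
      rw [e3] at e5
      rw [Sl_single] at e0 e1' e2 e5
      ext i
      unfold Matrix.mulVec dotProduct
      rw [Fin.sum_univ_four]
      simp only [Matrix.cons_val, mul_zero, zero_add, add_zero, mul_one, Pi.zero_apply]
      fin_cases i
      · exact e0
      · exact e1'
      · exact e2
      · exact e5

/-- **rank one** -/
theorem case1 {A : Fin r → Matrix (Fin 4) (Fin 4) K}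
    (hr : ∀ l, R1 (Sl A l)) (l0 : Fin r → K) (h0 : Sl A l0 ≠ 0) (hd : (Sl A l0).det = 0) :
    Res A := by
  obtain ⟨v, hv, hv0⟩ := Matrix.exists_mulVec_eq_zero_iff.2 hd
  right; left
  refine ⟨v, hv, fun j => ?_⟩
  obtain ⟨a0, p0, e0⟩ := hr l0
  obtain ⟨a, p, e⟩ := hr (Pi.single j 1)
  obtain ⟨b, q, eb⟩ := hr (Pi.single j 1 + l0)
  rw [Sl_add] at eb
  rw [Sl_single] at e eb
  have ha0 : a0 ≠ 0 := by
    rintro rfl
    exact h0 (by rw [e0, zero_smul])
  have hp0 : ∃ k, p0 k ≠ 0 := by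
    by_contra h
    push Not at h
    apply h0
    rw [e0]
    ext i k
    simp [Matrix.vecMulVec_apply, h i]
  have hpv0 : ∑ i, p0 i * v i = 0 := by
    obtain ⟨k, hk⟩ := hp0
    have h1 := congrFun hv0 k
    rw [e0] at h1
    unfold Matrix.mulVec dotProduct at h1
    simp only [Matrix.smul_apply, Matrix.vecMulVec_apply, smul_eq_mul, Pi.zero_apply] at h1
    have h2 : a0 * p0 k * ∑ i, p0 i * v i = 0 := by
      rw [Finset.mul_sum, ← h1]
      exact Finset.sum_congr rfl fun i _ => by ring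
    exact (mul_eq_zero.1 h2).resolve_left (mul_ne_zero ha0 hk)
  by_cases ha : a = 0
  · rw [e, ha, zero_smul, Matrix.zero_mulVec]
  have hpar : ∀ i k, p i * p0 k = p0 i * p k := by
    intro i k
    have h1 : (A j i i + Sl A l0 i i) * (A j k k + Sl A l0 k k) -
        (A j i k + Sl A l0 i k) ^ 2 = 0 := by
      rw [← Matrix.add_apply, ← Matrix.add_apply, ← Matrix.add_apply, eb]
      simp only [Matrix.smul_apply, Matrix.vecMulVec_apply, smul_eq_mul]
      ring
    rw [e, e0] at h1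
    simp only [Matrix.smul_apply, Matrix.vecMulVec_apply, smul_eq_mul] at h1
    have h2 : a * a0 * (p i * p0 k - p0 i * p k) ^ 2 = 0 := by linear_combination h1
    have h3 := (mul_eq_zero.1 h2).resolve_left (mul_ne_zero ha ha0)
    exact sub_eq_zero.1 (pow_eq_zero_iff (two_ne_zero) |>.1 h3)
  have hpv : ∑ i, p i * v i = 0 := by
    obtain ⟨k, hk⟩ := hp0
    have h1 : p0 k * ∑ i, p i * v i = 0 := by
      rw [Finset.mul_sum]
      have h2 : ∀ i ∈ Finset.univ, p0 k * (p i * v i) = p k * (p0 i * v i) := fun i _ => by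
        linear_combination v i * hpar i k
      rw [Finset.sum_congr rfl h2, ← Finset.mul_sum, hpv0, mul_zero]
    exact (mul_eq_zero.1 h1).resolve_left hk
  rw [e]
  ext i
  unfold Matrix.mulVec dotProduct
  simp only [Matrix.smul_apply, Matrix.vecMulVec_apply, smul_eq_mul, Pi.zero_apply]
  have h2 : ∀ k ∈ Finset.univ, a * (p i * p k) * v k = a * p i * (p k * v k) := fun k _ => by ring
  rw [Finset.sum_congr rfl h2, ← Finset.mul_sum, hpv, mul_zero]

/-- diagonal forms -/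
theorem diag_ex [CharZero K] {M : Matrix (Fin 4) (Fin 4) K} (h : M.IsSymm) :
    ∃ (P : Matrix (Fin 4) (Fin 4) K) (d : Fin 4 → K), P.det ≠ 0 ∧ Pᵀ * M * P = diagonal d := by
  have : Invertible (2 : K) := invertibleOfNonzero two_ne_zero
  obtain ⟨B, hB⟩ : ∃ B : LinearMap.BilinForm K (Fin 4 → K), B = Matrix.toBilin' M := ⟨_, rfl⟩
  have hBap : ∀ x y, B x y = x ⬝ᵥ (M *ᵥ y) := by
    intro x y
    rw [hB]
    exact Matrix.toBilin'_apply' M x y
  have hBs : LinearMap.IsSymm B := by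
    refine ⟨fun x y => ?_⟩
    rw [RingHom.id_apply, hBap, hBap, Matrix.dotProduct_mulVec, ← Matrix.mulVec_transpose, h,
      dotProduct_comm]
  obtain ⟨v, hv⟩ := LinearMap.BilinForm.exists_orthogonal_basis hBs
  have hfr : Module.finrank K (Fin 4 → K) = 4 := by simp
  obtain ⟨w, hw⟩ : ∃ w : Module.Basis (Fin 4) K (Fin 4 → K), ∀ i j, i ≠ j → B (w i) (w j) = 0 := by
    refine ⟨v.reindex (finCongr hfr), fun i j hij => ?_⟩
    rw [Module.Basis.reindex_apply, Module.Basis.reindex_apply]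
    apply hv
    intro h
    exact hij ((finCongr hfr).symm.injective h)
  refine ⟨Matrix.of fun i j => w j i, fun j => B (w j) (w j), ?_, ?_⟩
  · have h1 : (Pi.basisFun K (Fin 4)).toMatrix w = Matrix.of fun i j => w j i := by
      ext i j
      rw [Module.Basis.toMatrix_apply, Pi.basisFun_repr]
      rfl
    have h2 := (Pi.basisFun K (Fin 4)).toMatrix_mul_toMatrix_flip w
    rw [h1] at h2
    intro h3
    have h4 := congrArg Matrix.det h2
    rw [Matrix.det_mul, h3, zero_mul, Matrix.det_one] at h4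
    exact zero_ne_one h4
  · ext i j
    rw [conj_apply]
    have h1 : B (w i) (w j) = ∑ a, ∑ b, w i a * M a b * w j b := by
      rw [hBap]
      unfold dotProduct Matrix.mulVec dotProduct
      refine Finset.sum_congr rfl fun a _ => ?_
      rw [Finset.mul_sum]
      exact Finset.sum_congr rfl fun b _ => by ring
    have h2 : ∑ a, ∑ b, (Matrix.of fun i j => w j i) a i * M a b * (Matrix.of fun i j => w j i) b j =
        B (w i) (w j) := by
      rw [h1]
      rfl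
    rw [h2]
    by_cases hij : i = j
    · rw [hij, Matrix.diagonal_apply_eq]
    · rw [Matrix.diagonal_apply_ne _ hij, hw i j hij]

/-- the nonzero entries come first -/
theorem diag_sorted [CharZero K] {M : Matrix (Fin 4) (Fin 4) K} (h : M.IsSymm) :
    ∃ (P : Matrix (Fin 4) (Fin 4) K) (d : Fin 4 → K), P.det ≠ 0 ∧ Pᵀ * M * P = diagonal d ∧
      (d 0 = 0 → d 1 = 0) ∧ (d 1 = 0 → d 2 = 0) ∧ (d 2 = 0 → d 3 = 0) := by
  classical
  obtain ⟨P, d, hP, hd⟩ := diag_ex h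
  obtain ⟨f, hf⟩ : ∃ f : Fin 4 → ℕ, f = fun i => if d i = 0 then 1 else 0 := ⟨_, rfl⟩
  obtain ⟨σ, hσ⟩ : ∃ σ : Equiv.Perm (Fin 4), σ = Tuple.sort f := ⟨_, rfl⟩
  have hm := Tuple.monotone_sort f
  rw [← hσ] at hm
  have key : ∀ i j : Fin 4, i ≤ j → d (σ i) = 0 → d (σ j) = 0 := by
    intro i j hij hi
    by_contra hj
    have h1 := hm hij
    simp only [Function.comp] at h1
    rw [hf] at h1
    simp only [hi, hj, if_true, if_false] at h1
    omega
  refine ⟨P.submatrix id σ, d ∘ σ, ?_, ?_, key 0 1 (by decide), key 1 2 (by decide),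
    key 2 3 (by decide)⟩
  · rw [Matrix.det_permute']
    refine mul_ne_zero ?_ hP
    have : (((Equiv.Perm.sign σ : ℤˣ) : ℤ) : K) ≠ 0 := by
      rcases Int.units_eq_one_or (Equiv.Perm.sign σ) with h | h <;> rw [h] <;> simp
    exact this
  · ext i j
    rw [conj_apply]
    have h1 : (Pᵀ * M * P) (σ i) (σ j) = (diagonal d : Matrix (Fin 4) (Fin 4) K) (σ i) (σ j) := by
      rw [hd]
    rw [conj_apply] at h1
    simp only [Matrix.submatrix_apply, id_eq]
    rw [h1]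
    by_cases hij : i = j
    · rw [hij, Matrix.diagonal_apply_eq, Matrix.diagonal_apply_eq, Function.comp]
    · rw [Matrix.diagonal_apply_ne _ hij, Matrix.diagonal_apply_ne _ (fun h => hij (σ.injective h))]

theorem back {M P : Matrix (Fin 4) (Fin 4) K} {d : Fin 4 → K} (hP : P.det ≠ 0)
    (h : Pᵀ * M * P = diagonal d) (h2 : d 2 = 0) (h3 : d 3 = 0) :
    M = d 0 • vecMulVec ((P⁻¹)ᵀ.mulVec (Pi.single 0 1)) ((P⁻¹)ᵀ.mulVec (Pi.single 0 1)) +
      d 1 • vecMulVec ((P⁻¹)ᵀ.mulVec (Pi.single 1 1)) ((P⁻¹)ᵀ.mulVec (Pi.single 1 1)) := by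
  have hu : IsUnit P.det := isUnit_iff_ne_zero.2 hP
  have h1 : M = (P⁻¹)ᵀ * (Pᵀ * M * P) * P⁻¹ := by
    rw [← Matrix.mul_assoc, ← Matrix.mul_assoc, ← Matrix.transpose_mul,
      Matrix.mul_nonsing_inv _ hu, Matrix.transpose_one, Matrix.one_mul, Matrix.mul_assoc,
      Matrix.mul_nonsing_inv _ hu, Matrix.mul_one]
  have h4 : (diagonal d : Matrix (Fin 4) (Fin 4) K) =
      d 0 • vecMulVec (Pi.single 0 1) (Pi.single 0 1) + d 1 • vecMulVec (Pi.single 1 1) (Pi.single 1 1) := by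
    ext i j
    fin_cases i <;> fin_cases j <;> simp [Matrix.diagonal, Matrix.vecMulVec_apply, h2, h3]
  rw [h4] at h
  rw [h] at h1
  rw [h1, Matrix.mul_add, Matrix.add_mul, Matrix.mul_smul, Matrix.mul_smul, Matrix.smul_mul,
    Matrix.smul_mul, conj_vec, conj_vec]

/-- **linear systems of singular quadratic forms in four variables** -/
theorem sing4 [CharZero K] {A : Fin r → Matrix (Fin 4) (Fin 4) K} (hs : ∀ j, (A j).IsSymm) :
    Res A := by
  by_cases ha : ∃ lam : Fin r → K, (Sl A lam).det ≠ 0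
  · exact Or.inl ha
  have hdet : ∀ l, (Sl A l).det = 0 := fun l => by
    by_contra h
    exact ha ⟨l, h⟩
  have hd0 : ∀ (l : Fin r → K) (P : Matrix (Fin 4) (Fin 4) K) (d : Fin 4 → K),
      Pᵀ * Sl A l * P = diagonal d → d 0 * d 1 * d 2 * d 3 = 0 := by
    intro l P d h
    have h1 := congrArg Matrix.det h
    rw [Matrix.det_mul, Matrix.det_mul, hdet, mul_zero, zero_mul, Matrix.det_diagonal,
      Fin.prod_univ_four] at h1
    exact h1.symm
  by_cases h3 : ∃ (l : Fin r → K) (P : Matrix (Fin 4) (Fin 4) K) (d : Fin 4 → K), P.det ≠ 0 ∧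
      Pᵀ * Sl A l * P = diagonal d ∧ d 0 ≠ 0 ∧ d 1 ≠ 0 ∧ d 2 ≠ 0
  · obtain ⟨l, P, d, hP, hd, e0, e1, e2⟩ := h3
    have e3 : d 3 = 0 :=
      (mul_eq_zero.1 (hd0 l P d hd)).resolve_left (mul_ne_zero (mul_ne_zero e0 e1) e2)
    apply inv_Res hP
    refine case3 (fun j => conj_symm (hs j)) (conj_det hdet P) l e0 e1 e2 ?_
    rw [Sl_conj, hd]
    ext i j
    fin_cases i <;> fin_cases j <;> simp [Matrix.diagonal, e3]
  have hz2 : ∀ (l : Fin r → K) (P : Matrix (Fin 4) (Fin 4) K) (d : Fin 4 → K), P.det ≠ 0 →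
      Pᵀ * Sl A l * P = diagonal d → (d 0 = 0 → d 1 = 0) → (d 1 = 0 → d 2 = 0) → d 2 = 0 := by
    intro l P d hP hd g0 g1
    by_contra hc
    exact h3 ⟨l, P, d, hP, hd, fun h => hc (g1 (g0 h)), fun h => hc (g1 h), hc⟩
  have hr2 : ∀ l, R2 (Sl A l) := by
    intro l
    obtain ⟨P, d, hP, hd, g0, g1, g2⟩ := diag_sorted (Sl_symm hs l)
    have e2 := hz2 l P d hP hd g0 g1
    exact ⟨_, _, _, _, back hP hd e2 (g2 e2)⟩
  by_cases h2 : ∃ (l : Fin r → K) (P : Matrix (Fin 4) (Fin 4) K) (d : Fin 4 → K), P.det ≠ 0 ∧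
      Pᵀ * Sl A l * P = diagonal d ∧ d 0 ≠ 0 ∧ d 1 ≠ 0 ∧ d 2 = 0 ∧ d 3 = 0
  · obtain ⟨l, P, d, hP, hd, e0, e1, e2, e3⟩ := h2
    apply inv_Res hP
    refine case2 (fun j => conj_symm (hs j)) (fun l => by rw [Sl_conj]; exact conj_R2 (hr2 l) P)
      l e0 e1 ?_
    rw [Sl_conj, hd]
    ext i j
    fin_cases i <;> fin_cases j <;> simp [Matrix.diagonal, e2, e3]
  have hr1 : ∀ l, R1 (Sl A l) := by
    intro l
    obtain ⟨P, d, hP, hd, g0, g1, g2⟩ := diag_sorted (Sl_symm hs l)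
    have e2 := hz2 l P d hP hd g0 g1
    have e3 := g2 e2
    have e1 : d 1 = 0 := by
      by_contra hc
      exact h2 ⟨l, P, d, hP, hd, fun h => hc (g0 h), hc, e2, e3⟩
    have h4 := back hP hd e2 e3
    rw [e1, zero_smul, add_zero] at h4
    exact ⟨_, _, h4⟩
  by_cases h1 : ∃ l, Sl A l ≠ 0
  · obtain ⟨l, h1⟩ := h1
    exact case1 hr1 l h1 (hdet l)
  · push Not at h1
    right; left
    refine ⟨Pi.single 0 1, ?_, fun j => ?_⟩
    · intro h
      have := congrFun h 0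
      simp at this
    · have := h1 (Pi.single j 1)
      rw [Sl_single] at this
      rw [this, Matrix.zero_mulVec]

end

end Pool.Agent.Q208.QM
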