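import Pool.Agent.Q57.QM.Stm4
import Pool.Agent.Q208.QM.Sing2

/-!
# Project QM (helper57), job QM-R1
-/

set_option autoImplicit false

namespace Pool.Agent.Q208.QM

theorem qm_sing4 : Pool.Agent.Q57.QM.StSing4 := by
  intro K _ _ r A hs
  exact sing4 hs

end Pool.Agent.Q208.QM
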