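import Mathlib

/-!
# Linear systems of singular quadratic forms in four variables
-/

set_option autoImplicit false

namespace Pool.Agent.Q208.QM

open Matrix

/-- linear combinations -/
def Sl {K : Type} [Field K] {r : ℕ} (A : Fin r → Matrix (Fin 4) (Fin 4) K) (lam : Fin r → K) :
    Matrix (Fin 4) (Fin 4) K := ∑ j, lam j • A j

/-- the conclusion -/
def Res {K : Type} [Field K] {r : ℕ} (A : Fin r → Matrix (Fin 4) (Fin 4) K) : Prop :=
  (∃ lam : Fin r → K, (∑ j, lam j • A j).det ≠ 0) ∨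
  (∃ v : Fin 4 → K, v ≠ 0 ∧ ∀ j, (A j).mulVec v = 0) ∨
  (∃ (x w : Fin 4 → K) (L : Fin r → Fin 4 → K) (c : Fin r → K), x ≠ 0 ∧
    ∀ j, A j = Matrix.vecMulVec x (L j) + Matrix.vecMulVec (L j) x + c j • Matrix.vecMulVec w w)

section
variable {K : Type} [Field K] {r : ℕ}

theorem Sl_add (A : Fin r → Matrix (Fin 4) (Fin 4) K) (l m : Fin r → K) :
    Sl A (l + m) = Sl A l + Sl A m := by
  unfold Sl
  rw [← Finset.sum_add_distrib]
  exact Finset.sum_congr rfl fun j _ => add_smul _ _ _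

theorem Sl_smul (A : Fin r → Matrix (Fin 4) (Fin 4) K) (t : K) (l : Fin r → K) :
    Sl A (t • l) = t • Sl A l := by
  unfold Sl
  rw [Finset.smul_sum]
  refine Finset.sum_congr rfl fun j _ => ?_
  rw [Pi.smul_apply, smul_eq_mul, mul_smul]

theorem Sl_single (A : Fin r → Matrix (Fin 4) (Fin 4) K) (j : Fin r) :
    Sl A (Pi.single j 1) = A j := by
  classical
  unfold Sl
  rw [Finset.sum_eq_single j]
  · simp
  · intro i _ hij
    rw [Pi.single_eq_of_ne hij, zero_smul]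
  · intro h
    exact absurd (Finset.mem_univ j) h

theorem Sl_conj (A : Fin r → Matrix (Fin 4) (Fin 4) K) (P : Matrix (Fin 4) (Fin 4) K)
    (l : Fin r → K) : Sl (fun j => Pᵀ * A j * P) l = Pᵀ * Sl A l * P := by
  unfold Sl
  rw [Finset.mul_sum, Finset.sum_mul]
  refine Finset.sum_congr rfl fun j _ => ?_
  rw [Matrix.mul_smul, Matrix.smul_mul]

theorem inv_Res {A : Fin r → Matrix (Fin 4) (Fin 4) K} {P : Matrix (Fin 4) (Fin 4) K}
    (hP : P.det ≠ 0) (h : Res (fun j => Pᵀ * A j * P)) : Res A := by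
  have hu : IsUnit P.det := isUnit_iff_ne_zero.2 hP
  rcases h with ⟨lam, h⟩ | ⟨v, hv, h⟩ | ⟨x, w, L, c, hx, h⟩
  · left
    refine ⟨lam, fun h0 => h ?_⟩
    have h1 := Sl_conj A P lam
    unfold Sl at h1
    rw [h1, det_mul, det_mul, h0]
    ring
  · right; left
    refine ⟨P.mulVec v, fun h0 => hv ?_, fun j => ?_⟩
    · have h1 : P⁻¹.mulVec (P.mulVec v) = v := by
        rw [Matrix.mulVec_mulVec, Matrix.nonsing_inv_mul _ hu, Matrix.one_mulVec]
      rw [← h1, h0, Matrix.mulVec_zero]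
    · have h1 := h j
      have h2 : (P⁻¹)ᵀ.mulVec ((Pᵀ * A j * P).mulVec v) = (A j).mulVec (P.mulVec v) := by
        rw [Matrix.mulVec_mulVec, Matrix.mulVec_mulVec]
        congr 1
        rw [← Matrix.mul_assoc, ← Matrix.mul_assoc, ← Matrix.transpose_mul,
          Matrix.mul_nonsing_inv _ hu, Matrix.transpose_one, Matrix.one_mul]
      rw [← h2, h1, Matrix.mulVec_zero]
  · right; right
    refine ⟨(P⁻¹)ᵀ.mulVec x, (P⁻¹)ᵀ.mulVec w, fun j => (P⁻¹)ᵀ.mulVec (L j), c, fun h0 => hx ?_,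
      fun j => ?_⟩
    · have h1 : Pᵀ.mulVec ((P⁻¹)ᵀ.mulVec x) = x := by
        rw [Matrix.mulVec_mulVec, ← Matrix.transpose_mul, Matrix.nonsing_inv_mul _ hu,
          Matrix.transpose_one, Matrix.one_mulVec]
      rw [← h1, h0, Matrix.mulVec_zero]
    · have h1 : A j = (P⁻¹)ᵀ * (Pᵀ * A j * P) * P⁻¹ := by
        rw [← Matrix.mul_assoc, ← Matrix.mul_assoc, ← Matrix.transpose_mul,
          Matrix.mul_nonsing_inv _ hu, Matrix.transpose_one, Matrix.one_mul, Matrix.mul_assoc,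
          Matrix.mul_nonsing_inv _ hu, Matrix.mul_one]
      have key : ∀ a b : Fin 4 → K, (P⁻¹)ᵀ * vecMulVec a b * P⁻¹ =
          vecMulVec ((P⁻¹)ᵀ.mulVec a) ((P⁻¹)ᵀ.mulVec b) := by
        intro a b
        rw [Matrix.mul_vecMulVec, Matrix.vecMulVec_mul, Matrix.mulVec_transpose P⁻¹ b]
      have hj : Pᵀ * A j * P = vecMulVec x (L j) + vecMulVec (L j) x + c j • vecMulVec w w := h j
      rw [h1, hj, Matrix.mul_add, Matrix.mul_add, Matrix.add_mul, Matrix.add_mul, key, key,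
        Matrix.mul_smul, Matrix.smul_mul, key]

/-- a polynomial of degree at most three with four zeros -/
theorem poly3 [CharZero K] {c0 c1 c2 c3 : K}
    (h : ∀ t : K, c0 + c1 * t + c2 * t ^ 2 + c3 * t ^ 3 = 0) : c0 = 0 ∧ c1 = 0 ∧ c2 = 0 ∧ c3 = 0 := by
  have h0 := h 0
  have h1 := h 1
  have h2 := h (-1)
  have h3 := h 2
  have e0 : c0 = 0 := by linear_combination h0
  have e2 : 2 * c2 = 0 := by linear_combination h1 + h2 - 2 * h0
  have e2' : c2 = 0 := by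
    rcases mul_eq_zero.1 e2 with h | h
    · exact absurd h two_ne_zero
    · exact h
  have e3 : 6 * c3 = 0 := by
    linear_combination h3 - 2 * h1 + h0 - 2 * e2'
  have e3' : c3 = 0 := by
    rcases mul_eq_zero.1 e3 with h | h
    · exact absurd h (by norm_num)
    · exact h
  refine ⟨e0, ?_, e2', e3'⟩
  linear_combination h1 - h0 - e2' - e3'

theorem det4 (B : Matrix (Fin 4) (Fin 4) K) : B.det =
    B 0 0 * (B 1 1 * B 2 2 * B 3 3 - B 1 1 * B 2 3 * B 3 2 - B 1 2 * B 2 1 * B 3 3 +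
      B 1 2 * B 2 3 * B 3 1 + B 1 3 * B 2 1 * B 3 2 - B 1 3 * B 2 2 * B 3 1) -
    B 0 1 * (B 1 0 * B 2 2 * B 3 3 - B 1 0 * B 2 3 * B 3 2 - B 1 2 * B 2 0 * B 3 3 +
      B 1 2 * B 2 3 * B 3 0 + B 1 3 * B 2 0 * B 3 2 - B 1 3 * B 2 2 * B 3 0) +
    B 0 2 * (B 1 0 * B 2 1 * B 3 3 - B 1 0 * B 2 3 * B 3 1 - B 1 1 * B 2 0 * B 3 3 +
      B 1 1 * B 2 3 * B 3 0 + B 1 3 * B 2 0 * B 3 1 - B 1 3 * B 2 1 * B 3 0) -
    B 0 3 * (B 1 0 * B 2 1 * B 3 2 - B 1 0 * B 2 2 * B 3 1 - B 1 1 * B 2 0 * B 3 2 +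
      B 1 1 * B 2 2 * B 3 0 + B 1 2 * B 2 0 * B 3 1 - B 1 2 * B 2 1 * B 3 0) := by
  rw [Matrix.det_succ_row_zero, Fin.sum_univ_four]
  have e0 : (B.submatrix Fin.succ (Fin.succAbove 0)).det =
      B 1 1 * B 2 2 * B 3 3 - B 1 1 * B 2 3 * B 3 2 - B 1 2 * B 2 1 * B 3 3 +
      B 1 2 * B 2 3 * B 3 1 + B 1 3 * B 2 1 * B 3 2 - B 1 3 * B 2 2 * B 3 1 := by
    rw [Matrix.det_fin_three]
    rfl
  have e1 : (B.submatrix Fin.succ (Fin.succAbove 1)).det =
      B 1 0 * B 2 2 * B 3 3 - B 1 0 * B 2 3 * B 3 2 - B 1 2 * B 2 0 * B 3 3 +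
      B 1 2 * B 2 3 * B 3 0 + B 1 3 * B 2 0 * B 3 2 - B 1 3 * B 2 2 * B 3 0 := by
    rw [Matrix.det_fin_three]
    rfl
  have e2 : (B.submatrix Fin.succ (Fin.succAbove 2)).det =
      B 1 0 * B 2 1 * B 3 3 - B 1 0 * B 2 3 * B 3 1 - B 1 1 * B 2 0 * B 3 3 +
      B 1 1 * B 2 3 * B 3 0 + B 1 3 * B 2 0 * B 3 1 - B 1 3 * B 2 1 * B 3 0 := by
    rw [Matrix.det_fin_three]
    rfl
  have e3 : (B.submatrix Fin.succ (Fin.succAbove 3)).det =
      B 1 0 * B 2 1 * B 3 2 - B 1 0 * B 2 2 * B 3 1 - B 1 1 * B 2 0 * B 3 2 +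
      B 1 1 * B 2 2 * B 3 0 + B 1 2 * B 2 0 * B 3 1 - B 1 2 * B 2 1 * B 3 0 := by
    rw [Matrix.det_fin_three]
    rfl
  rw [e0, e1, e2, e3]
  have f0 : ((-1 : K)) ^ ((0 : Fin 4) : ℕ) = 1 := by norm_num
  have f1 : ((-1 : K)) ^ ((1 : Fin 4) : ℕ) = -1 := by norm_num
  have f2 : ((-1 : K)) ^ ((2 : Fin 4) : ℕ) = 1 := by norm_num
  have f3 : ((-1 : K)) ^ ((3 : Fin 4) : ℕ) = -1 := by
    show ((-1 : K)) ^ 3 = -1
    norm_num
  rw [f0, f1, f2, f3]
  ring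

omit [Field K] in
/-- entries of a symmetric matrix -/
theorem symm_entry {B : Matrix (Fin 4) (Fin 4) K} (h : B.IsSymm) (i j : Fin 4) : B i j = B j i :=
  (h.apply i j).symm

theorem Sl_symm {A : Fin r → Matrix (Fin 4) (Fin 4) K} (h : ∀ j, (A j).IsSymm) (l : Fin r → K) :
    (Sl A l).IsSymm := by
  unfold Sl Matrix.IsSymm
  rw [Matrix.transpose_sum]
  refine Finset.sum_congr rfl fun j _ => ?_
  rw [Matrix.transpose_smul, (h j)]

/-- **rank three, adapted coordinates** -/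
theorem case3' [CharZero K] {A : Fin r → Matrix (Fin 4) (Fin 4) K} (hs : ∀ j, (A j).IsSymm)
    (hdet : ∀ l, (Sl A l).det = 0) (l0 l1 : Fin r → K) {δ : K} (hδ : δ ≠ 0)
    (h0 : Sl A l0 = !![0, 0, 0, 0; 0, 0, 1, 0; 0, 1, 0, 0; 0, 0, 0, δ])
    (h1 : Sl A l1 0 0 = 0 ∧ Sl A l1 0 1 = 0 ∧ Sl A l1 0 2 = 1 ∧ Sl A l1 0 3 = 0) : Res A := by
  -- entries of `S l + t S l0`
  have key : ∀ l : Fin r → K, ∀ t : K, (Sl A l + t • Sl A l0).det = 0 := by
    intro l t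
    rw [← Sl_smul, ← Sl_add]
    exact hdet _
  have sy : ∀ l i j, Sl A l i j = Sl A l j i := fun l i j => symm_entry (Sl_symm hs l) i j
  have c1 : ∀ l : Fin r → K, Sl A l 0 0 = 0 ∧
      2 * δ * Sl A l 0 1 * Sl A l 0 2 + Sl A l 0 3 ^ 2 = 0 := by
    intro l
    have h := key l
    obtain ⟨B, hB⟩ : ∃ B, B = Sl A l := ⟨_, rfl⟩
    have s10 := sy l 1 0
    have s20 := sy l 2 0
    have s30 := sy l 3 0
    have s21 := sy l 2 1
    have s31 := sy l 3 1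
    have s32 := sy l 3 2
    rw [h0] at h
    rw [← hB] at h s10 s20 s30 s21 s31 s32 ⊢
    have h2 : ∀ t : K, B.det + (-δ * B 0 0 * 0 +
        (δ * (B 0 0 * (B 1 1 * B 2 2 - B 1 2 ^ 2) - B 0 1 * (B 0 1 * B 2 2 - B 1 2 * B 0 2) +
          B 0 2 * (B 0 1 * B 1 2 - B 1 1 * B 0 2)) +
         2 * (-(B 0 0 * (B 1 2 * B 3 3 - B 1 3 * B 2 3)) + B 0 1 * (B 0 2 * B 3 3 - B 0 3 * B 2 3) -
          B 0 3 * (B 0 2 * B 1 3 - B 0 3 * B 1 2)))) * t +
        (-(2 * δ) * B 0 0 * B 1 2 + 2 * δ * B 0 1 * B 0 2 + B 0 3 ^ 2 - B 0 0 * B 3 3) * t ^ 2 +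
        (-δ * B 0 0) * t ^ 3 = 0 := by
      intro t
      have h3 := h t
      rw [det4] at h3 ⊢
      simp only [Matrix.add_apply, Matrix.smul_apply, Matrix.of_apply, Matrix.cons_val', Matrix.cons_val,
        smul_eq_mul, mul_zero, mul_one, add_zero] at h3
      rw [s10, s20, s30, s21, s31, s32] at h3 ⊢
      linear_combination h3
    obtain ⟨_, _, e2, e3⟩ := poly3 h2
    have e4 : B 0 0 = 0 := by
      rcases mul_eq_zero.1 e3 with h | h
      · exact absurd (neg_eq_zero.1 h) hδ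
      · exact h
    refine ⟨e4, ?_⟩
    rw [e4] at e2
    linear_combination e2
  have c2 : ∀ l : Fin r → K, Sl A l 0 1 = 0 := by
    intro l
    have e1 := (c1 l).2
    have e2 := (c1 (l + l1)).2
    rw [Sl_add] at e2
    simp only [Matrix.add_apply] at e2
    rw [h1.2.1, h1.2.2.1, h1.2.2.2] at e2
    have e3 : 2 * δ * Sl A l 0 1 = 0 := by linear_combination e2 - e1
    rcases mul_eq_zero.1 e3 with h | h
    · exact absurd h (mul_ne_zero two_ne_zero hδ)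
    · exact h
  have c3 : ∀ l : Fin r → K, Sl A l 0 3 = 0 := by
    intro l
    have e1 := (c1 l).2
    rw [c2 l] at e1
    have e2 : Sl A l 0 3 ^ 2 = 0 := by linear_combination e1
    exact pow_eq_zero_iff (two_ne_zero) |>.1 e2
  have c4 : ∀ l : Fin r → K, Sl A l 0 2 * Sl A l 1 1 = 0 ∧ Sl A l 0 2 * Sl A l 1 3 = 0 := by
    intro l
    have h := key l
    have d0 := (c1 l).1
    have d1 := c2 l
    have d3 := c3 l
    obtain ⟨B, hB⟩ : ∃ B, B = Sl A l := ⟨_, rfl⟩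
    have s10 := sy l 1 0
    have s20 := sy l 2 0
    have s30 := sy l 3 0
    have s21 := sy l 2 1
    have s31 := sy l 3 1
    have s32 := sy l 3 2
    rw [h0] at h
    rw [← hB] at h s10 s20 s30 s21 s31 s32 d0 d1 d3 ⊢
    have h2 : ∀ t : K, -(B 0 2 ^ 2 * (B 1 1 * B 3 3 - B 1 3 ^ 2)) + (-(δ * B 0 2 ^ 2 * B 1 1)) * t +
        0 * t ^ 2 + 0 * t ^ 3 = 0 := by
      intro t
      have h3 := h t
      rw [det4] at h3
      simp only [Matrix.add_apply, Matrix.smul_apply, Matrix.of_apply, Matrix.cons_val', Matrix.cons_val,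
        smul_eq_mul, mul_zero, mul_one, add_zero] at h3
      rw [s10, s20, s30, s21, s31, s32, d0, d1, d3] at h3
      linear_combination h3
    obtain ⟨e0, e1, _, _⟩ := poly3 h2
    have f1 : B 0 2 * B 1 1 = 0 := by
      have : δ * (B 0 2 * B 1 1) * B 0 2 = 0 := by linear_combination -e1
      rcases mul_eq_zero.1 this with h | h
      · rcases mul_eq_zero.1 h with h | h
        · exact absurd h hδ
        · exact h
      · rw [h, zero_mul]
    refine ⟨f1, ?_⟩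
    have : (B 0 2 * B 1 3) ^ 2 = 0 := by linear_combination e0 + B 0 2 * B 3 3 * f1
    exact pow_eq_zero_iff (two_ne_zero) |>.1 this
  have c5 : ∀ l : Fin r → K, Sl A l 1 1 = 0 ∧ Sl A l 1 3 = 0 := by
    have g := c4 l1
    rw [h1.2.2.1, one_mul, one_mul] at g
    intro l
    have e1 := c4 l
    have e2 := c4 (l + l1)
    rw [Sl_add] at e2
    simp only [Matrix.add_apply] at e2
    rw [h1.2.2.1, g.1, g.2, add_zero, add_zero] at e2
    exact ⟨by linear_combination e2.1 - e1.1, by linear_combination e2.2 - e1.2⟩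
  right; right
  refine ⟨![0, 0, 1, 0], ![0, 0, 0, 1], fun j => ![A j 0 2, A j 1 2, A j 2 2 / 2, A j 2 3],
    fun j => A j 3 3, ?_, fun j => ?_⟩
  · intro h
    have := congrFun h 2
    simp at this
  · have d0 := (c1 (Pi.single j 1)).1
    have d1 := c2 (Pi.single j 1)
    have d3 := c3 (Pi.single j 1)
    obtain ⟨d11, d13⟩ := c5 (Pi.single j 1)
    rw [Sl_single] at d0 d1 d3 d11 d13
    have s := fun a b => symm_entry (hs j) a b
    ext a b
    fin_cases a <;> fin_cases b <;>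
      simp [d0, d1, d3, d11, d13, s 1 0, s 2 0, s 3 0, s 2 1, s 3 1, s 3 2]

theorem conj_symm {M P : Matrix (Fin 4) (Fin 4) K} (h : M.IsSymm) : (Pᵀ * M * P).IsSymm := by
  unfold Matrix.IsSymm
  rw [Matrix.transpose_mul, Matrix.transpose_mul, Matrix.transpose_transpose, h, Matrix.mul_assoc]

theorem conj_det {A : Fin r → Matrix (Fin 4) (Fin 4) K} (h : ∀ l, (Sl A l).det = 0)
    (P : Matrix (Fin 4) (Fin 4) K) (l : Fin r → K) : (Sl (fun j => Pᵀ * A j * P) l).det = 0 := by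
  rw [Sl_conj, det_mul, det_mul, h, mul_zero, zero_mul]

theorem conj_apply (M P : Matrix (Fin 4) (Fin 4) K) (i j : Fin 4) : (Pᵀ * M * P) i j =
    ∑ a, ∑ b, P a i * M a b * P b j := by
  rw [Matrix.mul_apply, Finset.sum_comm]
  refine Finset.sum_congr rfl fun b _ => ?_
  rw [Matrix.mul_apply, Finset.sum_mul]
  refine Finset.sum_congr rfl fun a _ => ?_
  rw [Matrix.transpose_apply]

/-- **rank three, orthogonal coordinates**, first part -/
theorem case3pre [CharZero K] {A : Fin r → Matrix (Fin 4) (Fin 4) K} (hs : ∀ j, (A j).IsSymm)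
    (hdet : ∀ l, (Sl A l).det = 0) (l0 : Fin r → K) {a0 a1 a2 : K} (n0 : a0 ≠ 0) (n1 : a1 ≠ 0)
    (n2 : a2 ≠ 0) (h0 : Sl A l0 = !![a0, 0, 0, 0; 0, a1, 0, 0; 0, 0, a2, 0; 0, 0, 0, 0])
    (l : Fin r → K) : Sl A l 3 3 = 0 ∧
      a1 * a2 * Sl A l 0 3 ^ 2 + a0 * a2 * Sl A l 1 3 ^ 2 + a0 * a1 * Sl A l 2 3 ^ 2 = 0 := by
  have key : ∀ t : K, (Sl A l + t • Sl A l0).det = 0 := by
    intro t
    rw [← Sl_smul, ← Sl_add]
    exact hdet _
  have sy : ∀ i j, Sl A l i j = Sl A l j i := fun i j => symm_entry (Sl_symm hs l) i j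
  obtain ⟨B, hB⟩ : ∃ B, B = Sl A l := ⟨_, rfl⟩
  have s10 := sy 1 0
  have s20 := sy 2 0
  have s30 := sy 3 0
  have s21 := sy 2 1
  have s31 := sy 3 1
  have s32 := sy 3 2
  rw [h0] at key
  rw [← hB] at key s10 s20 s30 s21 s31 s32 ⊢
  have h2 : ∀ t : K, B.det +
      (a0 * (B 1 1 * (B 2 2 * B 3 3 - B 2 3 ^ 2) - B 1 2 * (B 1 2 * B 3 3 - B 2 3 * B 1 3) +
        B 1 3 * (B 1 2 * B 2 3 - B 2 2 * B 1 3)) +
      a1 * (B 0 0 * (B 2 2 * B 3 3 - B 2 3 ^ 2) - B 0 2 * (B 0 2 * B 3 3 - B 2 3 * B 0 3) +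
        B 0 3 * (B 0 2 * B 2 3 - B 2 2 * B 0 3)) +
      a2 * (B 0 0 * (B 1 1 * B 3 3 - B 1 3 ^ 2) - B 0 1 * (B 0 1 * B 3 3 - B 1 3 * B 0 3) +
        B 0 3 * (B 0 1 * B 1 3 - B 1 1 * B 0 3))) * t +
      (a0 * a1 * (B 2 2 * B 3 3 - B 2 3 ^ 2) + a0 * a2 * (B 1 1 * B 3 3 - B 1 3 ^ 2) +
        a1 * a2 * (B 0 0 * B 3 3 - B 0 3 ^ 2)) * t ^ 2 +
      (a0 * a1 * a2 * B 3 3) * t ^ 3 = 0 := by
    intro t
    have h3 := key t
    rw [det4] at h3 ⊢
    simp only [Matrix.add_apply, Matrix.smul_apply, Matrix.of_apply, Matrix.cons_val', Matrix.cons_val,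
      smul_eq_mul, mul_zero, add_zero] at h3
    rw [s10, s20, s30, s21, s31, s32] at h3 ⊢
    linear_combination h3
  obtain ⟨_, _, e2, e3⟩ := poly3 h2
  have e4 : B 3 3 = 0 := by
    rcases mul_eq_zero.1 e3 with h | h
    · exact absurd h (mul_ne_zero (mul_ne_zero n0 n1) n2)
    · exact h
  refine ⟨e4, ?_⟩
  rw [e4] at e2
  linear_combination -e2

/-- **rank three, orthogonal coordinates**, main part -/
theorem case3a [CharZero K] {A : Fin r → Matrix (Fin 4) (Fin 4) K} (hs : ∀ j, (A j).IsSymm)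
    (hdet : ∀ l, (Sl A l).det = 0) (l0 l1 : Fin r → K) {a0 a1 a2 : K} (n0 : a0 ≠ 0) (n1 : a1 ≠ 0)
    (n2 : a2 ≠ 0) (h0 : Sl A l0 = !![a0, 0, 0, 0; 0, a1, 0, 0; 0, 0, a2, 0; 0, 0, 0, 0])
    (hx : Sl A l1 0 3 ≠ 0) : Res A := by
  obtain ⟨b33, iso⟩ := case3pre hs hdet l0 n0 n1 n2 h0 l1
  have sy : ∀ i j, Sl A l1 i j = Sl A l1 j i := fun i j => symm_entry (Sl_symm hs l1) i j
  obtain ⟨x0, hx0⟩ : ∃ x, x = Sl A l1 0 3 := ⟨_, rfl⟩
  obtain ⟨x1, hx1⟩ : ∃ x, x = Sl A l1 1 3 := ⟨_, rfl⟩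
  obtain ⟨x2, hx2⟩ : ∃ x, x = Sl A l1 2 3 := ⟨_, rfl⟩
  rw [← hx0, ← hx1, ← hx2] at iso
  rw [← hx0] at hx
  obtain ⟨u0, hu0⟩ : ∃ u, a0 * u = x0 := ⟨x0 / a0, by field_simp⟩
  obtain ⟨u1, hu1⟩ : ∃ u, a1 * u = x1 := ⟨x1 / a1, by field_simp⟩
  obtain ⟨u2, hu2⟩ : ∃ u, a2 * u = x2 := ⟨x2 / a2, by field_simp⟩
  obtain ⟨y0, hy0⟩ : ∃ y, x0 * y = 1 := ⟨1 / x0, by field_simp⟩
  obtain ⟨κ, hκ⟩ : ∃ κ, 2 * κ = a0 * y0 ^ 2 := ⟨a0 * y0 ^ 2 / 2, by field_simp⟩
  have iso' : x0 * u0 + x1 * u1 + x2 * u2 = 0 := by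
    have : a0 * a1 * a2 * (x0 * u0 + x1 * u1 + x2 * u2) = 0 := by
      linear_combination iso + a1 * a2 * x0 * hu0 + a0 * a2 * x1 * hu1 + a0 * a1 * x2 * hu2
    rcases mul_eq_zero.1 this with h | h
    · exact absurd h (mul_ne_zero (mul_ne_zero n0 n1) n2)
    · exact h
  have hu0' : u0 ≠ 0 := by
    rintro rfl
    exact hx (by rw [← hu0, mul_zero])
  obtain ⟨P, hP⟩ : ∃ P : Matrix (Fin 4) (Fin 4) K, P = !![0, u0, y0 - κ * u0, 0;
    0, u1, -κ * u1, x2; 0, u2, -κ * u2, -x1; 1, 0, 0, 0] := ⟨_, rfl⟩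
  have hPd : P.det ≠ 0 := by
    have : P.det = u0 := by
      rw [det4, hP]
      simp only [Matrix.of_apply, Matrix.cons_val', Matrix.cons_val]
      linear_combination u0 * hy0 - y0 * iso'
    rw [this]
    exact hu0'
  obtain ⟨δ, hδ⟩ : ∃ δ, δ = a1 * x2 ^ 2 + a2 * x1 ^ 2 := ⟨_, rfl⟩
  have hδ0 : δ ≠ 0 := by
    intro h
    have : a1 * a2 * x0 ^ 2 = 0 := by
      rw [hδ] at h
      linear_combination iso - a0 * h
    exact (mul_ne_zero (mul_ne_zero n1 n2) (pow_ne_zero 2 hx)) this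
  apply inv_Res hPd
  refine case3' (fun j => conj_symm (hs j)) (conj_det hdet P) l0 l1 hδ0 ?_ ?_
  · rw [Sl_conj, h0]
    ext i j
    rw [conj_apply]
    simp only [Fin.sum_univ_four]
    rw [hP]
    fin_cases i <;> fin_cases j <;>
      simp only [Fin.zero_eta, Fin.mk_one, Fin.reduceFinMk, Matrix.of_apply, Matrix.cons_val',
        Matrix.cons_val, mul_zero, zero_mul, add_zero, zero_add, mul_one, one_mul]
    · linear_combination u0 * hu0 + u1 * hu1 + u2 * hu2 + iso'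
    · linear_combination (y0 - κ * u0) * hu0 - κ * u1 * hu1 - κ * u2 * hu2 - κ * iso' + hy0
    · linear_combination x2 * hu1 - x1 * hu2
    · linear_combination (y0 - κ * u0) * hu0 - κ * u1 * hu1 - κ * u2 * hu2 - κ * iso' + hy0
    · linear_combination (-2 * κ * y0 + κ ^ 2 * u0) * hu0 + κ ^ 2 * u1 * hu1 + κ ^ 2 * u2 * hu2 +
        κ ^ 2 * iso' - 2 * κ * hy0 - hκ
    · linear_combination -κ * x2 * hu1 + κ * x1 * hu2
    · linear_combination x2 * hu1 - x1 * hu2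
    · linear_combination -κ * x2 * hu1 + κ * x1 * hu2
    · rw [hδ]; ring
  · rw [Sl_conj]
    simp only [conj_apply, Fin.sum_univ_four]
    rw [sy 3 0, sy 3 1, sy 3 2, b33, ← hx0, ← hx1, ← hx2, hP]
    simp only [Matrix.of_apply, Matrix.cons_val', Matrix.cons_val, mul_zero, zero_mul, add_zero,
      zero_add, mul_one, one_mul, true_and]
    refine ⟨?_, ?_, ?_⟩
    · linear_combination iso'
    · linear_combination hy0 - κ * iso'
    · ring

/-- **rank three, orthogonal coordinates** -/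
theorem case3 [CharZero K] {A : Fin r → Matrix (Fin 4) (Fin 4) K} (hs : ∀ j, (A j).IsSymm)
    (hdet : ∀ l, (Sl A l).det = 0) (l0 : Fin r → K) {a0 a1 a2 : K} (n0 : a0 ≠ 0) (n1 : a1 ≠ 0)
    (n2 : a2 ≠ 0) (h0 : Sl A l0 = !![a0, 0, 0, 0; 0, a1, 0, 0; 0, 0, a2, 0; 0, 0, 0, 0]) : Res A := by
  by_cases c0 : ∃ l1, Sl A l1 0 3 ≠ 0
  · obtain ⟨l1, h1⟩ := c0
    exact case3a hs hdet l0 l1 n0 n1 n2 h0 h1
  by_cases c1 : ∃ l1, Sl A l1 1 3 ≠ 0
  · obtain ⟨l1, h1⟩ := c1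
    obtain ⟨P, hP⟩ : ∃ P : Matrix (Fin 4) (Fin 4) K, P = !![0, 1, 0, 0; 1, 0, 0, 0; 0, 0, 1, 0;
      0, 0, 0, 1] := ⟨_, rfl⟩
    have hPd : P.det ≠ 0 := by
      have : P.det = -1 := by
        rw [det4, hP]
        simp only [Matrix.of_apply, Matrix.cons_val', Matrix.cons_val]
        ring
      rw [this]
      exact neg_ne_zero.2 one_ne_zero
    apply inv_Res hPd
    refine case3a (fun j => conj_symm (hs j)) (conj_det hdet P) l0 l1 n1 n0 n2 ?_ ?_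
    · rw [Sl_conj, h0]
      ext i j
      rw [conj_apply]
      simp only [Fin.sum_univ_four]
      rw [hP]
      fin_cases i <;> fin_cases j <;>
        simp only [Fin.zero_eta, Fin.mk_one, Fin.reduceFinMk, Matrix.of_apply, Matrix.cons_val',
          Matrix.cons_val, mul_zero, zero_mul, add_zero, zero_add, mul_one, one_mul]
    · rw [Sl_conj, conj_apply]
      simp only [Fin.sum_univ_four]
      rw [hP]
      simp only [Matrix.of_apply, Matrix.cons_val', Matrix.cons_val, mul_zero, zero_mul, add_zero,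
        zero_add, mul_one, one_mul]
      exact h1
  by_cases c2 : ∃ l1, Sl A l1 2 3 ≠ 0
  · obtain ⟨l1, h1⟩ := c2
    obtain ⟨P, hP⟩ : ∃ P : Matrix (Fin 4) (Fin 4) K, P = !![0, 0, 1, 0; 0, 1, 0, 0; 1, 0, 0, 0;
      0, 0, 0, 1] := ⟨_, rfl⟩
    have hPd : P.det ≠ 0 := by
      have : P.det = -1 := by
        rw [det4, hP]
        simp only [Matrix.of_apply, Matrix.cons_val', Matrix.cons_val]
        ring
      rw [this]
      exact neg_ne_zero.2 one_ne_zero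
    apply inv_Res hPd
    refine case3a (fun j => conj_symm (hs j)) (conj_det hdet P) l0 l1 n2 n1 n0 ?_ ?_
    · rw [Sl_conj, h0]
      ext i j
      rw [conj_apply]
      simp only [Fin.sum_univ_four]
      rw [hP]
      fin_cases i <;> fin_cases j <;>
        simp only [Fin.zero_eta, Fin.mk_one, Fin.reduceFinMk, Matrix.of_apply, Matrix.cons_val',
          Matrix.cons_val, mul_zero, zero_mul, add_zero, zero_add, mul_one, one_mul]
    · rw [Sl_conj, conj_apply]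
      simp only [Fin.sum_univ_four]
      rw [hP]
      simp only [Matrix.of_apply, Matrix.cons_val', Matrix.cons_val, mul_zero, zero_mul, add_zero,
        zero_add, mul_one, one_mul]
      exact h1
  push Not at c0 c1 c2
  right; left
  refine ⟨![0, 0, 0, 1], ?_, fun j => ?_⟩
  · intro h
    have := congrFun h 3
    simp at this
  · have e0 := c0 (Pi.single j 1)
    have e1 := c1 (Pi.single j 1)
    have e2 := c2 (Pi.single j 1)
    have e3 := (case3pre hs hdet l0 n0 n1 n2 h0 (Pi.single j 1)).1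
    rw [Sl_single] at e0 e1 e2 e3
    ext i
    unfold Matrix.mulVec dotProduct
    rw [Fin.sum_univ_four]
    simp only [Matrix.cons_val, mul_zero, zero_add, mul_one, Pi.zero_apply]
    fin_cases i
    · exact e0
    · exact e1
    · exact e2
    · exact e3

end

end Pool.Agent.Q208.QM
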